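import Pool.Agent.Run7.h202.RP.Stm

set_option autoImplicit false

/-!
# Project RP, piece BIP: many edges between disjoint sets of linear size
-/

namespace Pool.Agent.Run7.h271.RP

open Finset Filter Pool.Agent.H234RC Pool.Agent.TH953.RC Pool.Agent.Y395.RS Pool.Agent.Y395.RW
  Pool.Agent.Run7.h202.RP

theorem injOn_pair {V : Type} {S W : Finset V} (h : Disjoint S W) :
    Set.InjOn (fun q : V × V => s(q.1, q.2)) ((S ×ˢ W : Finset (V × V)) : Set (V × V)) := by
  rintro ⟨a, b⟩ hab ⟨c, d⟩ hcd he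
  rw [mem_coe, mem_product] at hab hcd
  rcases Sym2.eq_iff.1 he with ⟨h1, h2⟩ | ⟨h1, h2⟩
  · exact Prod.ext h1 h2
  · exfalso
    have h3 : a ∈ W := by
      have : a = d := h1
      rw [this]
      exact hcd.2
    exact (Finset.disjoint_left.1 h hab.1) h3

section

variable {V : Type} [Fintype V] [DecidableEq V]

/-- the pairs between `S` and `W` -/
def bt (S W : Finset V) : Finset (Sym2 V) := (S ×ˢ W).image fun q => s(q.1, q.2)

theorem bt_card {S W : Finset V} (h : Disjoint S W) : (bt S W).card = S.card * W.card := by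
  unfold bt
  rw [card_image_of_injOn (injOn_pair h), card_product]

theorem bt_sub {S W : Finset V} (h : Disjoint S W) : bt S W ⊆ pairs V := by
  intro e he
  obtain ⟨q, hq, rfl⟩ := mem_image.1 he
  rw [mem_product] at hq
  rw [mem_pairs]
  rintro h1
  exact (Finset.disjoint_left.1 h hq.1) (h1 ▸ hq.2)

theorem eBt_eq {S W : Finset V} (h : Disjoint S W) (F : Finset (Sym2 V)) :
    eBt F S W = (F ∩ bt S W).card := by
  have key : ((S ×ˢ W).filter (fun q : V × V => s(q.1, q.2) ∈ F)).card = (F ∩ bt S W).card := by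
    rw [← card_image_of_injOn (f := fun q : V × V => s(q.1, q.2))
      ((injOn_pair h).mono (by
        intro q hq
        exact (mem_filter.1 hq).1))]
    congr 1
    ext e
    rw [mem_image, mem_inter, bt, mem_image]
    constructor
    · rintro ⟨q, hq, rfl⟩
      rw [mem_filter] at hq
      exact ⟨hq.2, q, hq.1, rfl⟩
    · rintro ⟨h1, q, hq, rfl⟩
      exact ⟨q, mem_filter.2 ⟨hq, h1⟩, rfl⟩
  unfold eBt
  convert key

/-- one pair of sets -/
theorem one_term (hJ : JOINT) {p : ℝ} (h0 : 0 ≤ p) (h1 : p ≤ 1) {S W : Finset V}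
    (h : Disjoint S W) :
    P p (fun F => (eBt F S W : ℝ) < p * S.card * W.card / 2) ≤
      Real.exp (-(p * S.card * W.card / 10)) := by
  have h2 := hJ V p (p * S.card * W.card / 2) ∅ (bt S W) h0 h1 (empty_subset _) (bt_sub h)
    (disjoint_empty_left _)
  rw [card_empty, pow_zero, one_mul, bt_card h] at h2
  have h3 : P p (fun F => (eBt F S W : ℝ) < p * S.card * W.card / 2) ≤
      P p (fun F => ∅ ⊆ F ∧ ((F ∩ bt S W).card : ℝ) ≤ p * S.card * W.card / 2) := by
    unfold P
    refine pr_mono (fun _ => h0) (fun _ => h1) fun F _ hF => ⟨empty_subset _, ?_⟩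
    rw [eBt_eq h] at hF
    exact hF.le
  refine h3.trans (h2.trans (Real.exp_le_exp.2 ?_))
  push_cast
  linarith

end

theorem t_BIP : JOINT → BIP := by
  classical
  intro hJ ε hε
  have hlog : Tendsto (fun n : ℕ => Real.log n) atTop atTop :=
    Real.tendsto_log_atTop.comp tendsto_natCast_atTop_atTop
  have hsmall : ∀ᶠ n : ℕ in atTop, ‖Real.log n‖ ≤ 1 / 400 * ‖(n : ℝ)‖ :=
    (Real.isLittleO_log_id_atTop.comp_tendsto tendsto_natCast_atTop_atTop).bound (by norm_num)
  filter_upwards [hlog.eventually_ge_atTop (320 * (Real.log 4 + 8) / ε), hsmall,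
    eventually_ge_atTop 1] with n h1 h2 h3
  intro V _ _ p hn hp
  have hn0 : (0 : ℝ) < n := by exact_mod_cast h3
  have hn1 : (1 : ℝ) ≤ n := by exact_mod_cast h3
  have hlog0 : 0 ≤ Real.log n := Real.log_nonneg hn1
  have hlogn : Real.log n ≤ n := (Real.log_le_sub_one_of_pos hn0).trans (by linarith)
  have hp0 : 0 ≤ p := le_trans (by positivity) hp.1
  have hp1 : p ≤ 1 := by
    refine hp.2.trans ?_
    rw [div_le_one hn0]
    rw [Real.norm_of_nonneg hlog0, Real.norm_of_nonneg hn0.le] at h2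
    linarith
  let I : Finset (Finset V × Finset V) := univ.filter fun q =>
    Disjoint q.1 q.2 ∧ ε * Fintype.card V ≤ (q.1.card : ℝ) ∧
      (Fintype.card V : ℝ) / 4 ≤ (q.2.card : ℝ)
  have hterm : ∀ q ∈ I, P p (fun F => (eBt F q.1 q.2 : ℝ) < p * q.1.card * q.2.card / 2) ≤
      Real.exp (-(ε * n * Real.log n / 320)) := by
    intro q hq
    obtain ⟨-, hd, hS, hW⟩ := mem_filter.1 hq
    rw [hn] at hS hW
    refine (one_term hJ hp0 hp1 hd).trans (Real.exp_le_exp.2 (neg_le_neg ?_))
    have h4 : ε * n * (n / 4) ≤ (q.1.card : ℝ) * q.2.card :=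
      mul_le_mul hS hW (by positivity) (by positivity)
    have h5 : Real.log n / (8 * n) * (ε * n * (n / 4)) ≤ p * ((q.1.card : ℝ) * q.2.card) :=
      mul_le_mul hp.1 h4 (by positivity) hp0
    have h6 : Real.log n / (8 * n) * (ε * n * (n / 4)) = ε * n * Real.log n / 32 := by
      field_simp
      ring
    rw [h6] at h5
    nlinarith
  have hI : (I.card : ℝ) ≤ Real.exp (n * Real.log 4) := by
    have h4 : I.card ≤ 4 ^ n := by
      refine (card_le_univ I).trans ?_
      rw [Fintype.card_prod, Fintype.card_finset, hn, ← mul_pow]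
      norm_num
    have h5 : Real.exp (n * Real.log 4) = ((4 ^ n : ℕ) : ℝ) := by
      rw [mul_comm, Real.exp_mul, Real.exp_log (by norm_num), Real.rpow_natCast]
      push_cast
      rfl
    rw [h5]
    exact_mod_cast h4
  have h4 : P (V := V) p (fun F => ¬ Bip p ε F) ≤
      P p (fun F => ∃ q ∈ I, (eBt F q.1 q.2 : ℝ) < p * q.1.card * q.2.card / 2) := by
    unfold P
    refine pr_mono (fun _ => hp0) (fun _ => hp1) fun F _ hF => ?_
    unfold Bip at hF
    push Not at hF
    obtain ⟨S, W, hd, hS, hW, hlt⟩ := hF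
    exact ⟨(S, W), mem_filter.2 ⟨mem_univ _, hd, hS, hW⟩, hlt⟩
  refine h4.trans ((pr_ex (fun _ => hp0) (fun _ => hp1) _ I _).trans ?_)
  refine (sum_le_sum hterm).trans ?_
  rw [sum_const, nsmul_eq_mul]
  refine (mul_le_mul_of_nonneg_right hI (Real.exp_nonneg _)).trans ?_
  have h5 : 1 / (n : ℝ) ^ 8 = Real.exp (-(8 * Real.log n)) := by
    rw [Real.exp_neg, mul_comm, Real.exp_mul, Real.exp_log hn0, one_div]
    norm_cast
  rw [h5, ← Real.exp_add]
  refine Real.exp_le_exp.2 ?_
  have h6 : Real.log 4 + 8 ≤ ε * Real.log n / 320 := by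
    rw [div_le_iff₀ hε] at h1
    linarith
  have h7 : (n : ℝ) * (Real.log 4 + 8) ≤ n * (ε * Real.log n / 320) :=
    mul_le_mul_of_nonneg_left h6 hn0.le
  nlinarith

end Pool.Agent.Run7.h271.RP
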